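import Mathlib

set_option autoImplicit false

namespace Pool.Agent.Helper73.Vu

open Finset

section twin

variable {V : Type*} [Fintype V] [DecidableEq V] (G : SimpleGraph V) [DecidableRel G.Adj]

lemma sum_sq (A : Finset V) :
    ∑ z : V, (#(A.filter fun x => G.Adj x z)) ^ 2 =
      ∑ x ∈ A, ∑ y ∈ A, #(G.neighborFinset x ∩ G.neighborFinset y) := by
  classical
  have h1 : ∀ z : V, (#(A.filter fun x => G.Adj x z)) ^ 2 =
      ∑ x ∈ A, ∑ y ∈ A, (if G.Adj x z ∧ G.Adj y z then 1 else 0) := by
    intro z
    rw [sq, Finset.card_filter, Finset.sum_mul_sum]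
    refine Finset.sum_congr rfl fun x _ => Finset.sum_congr rfl fun y _ => ?_
    by_cases h : G.Adj x z <;> by_cases h' : G.Adj y z <;> simp [h, h']
  simp_rw [h1]
  rw [Finset.sum_comm]
  refine Finset.sum_congr rfl fun x _ => ?_
  rw [Finset.sum_comm]
  refine Finset.sum_congr rfl fun y _ => ?_
  rw [Finset.sum_boole]
  simp only [Nat.cast_id]
  congr 1
  ext z
  simp [SimpleGraph.mem_neighborFinset]

omit [Fintype V] [DecidableEq V] in
lemma interedges_eq_sum (A B : Finset V) :
    #(G.interedges A B) = ∑ z ∈ B, #(A.filter fun x => G.Adj x z) := by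
  classical
  rw [SimpleGraph.interedges, Rel.interedges, Finset.card_filter, Finset.sum_product,
    Finset.sum_comm]
  refine Finset.sum_congr rfl fun z _ => ?_
  rw [Finset.card_filter]

lemma dense_bound (A B : Finset V) (g η : ℝ) (hη1 : η ≤ 1)
    (hA : A.Nonempty)
    (hg : ∀ u v : V, u ≠ v → (#(G.neighborFinset u ∩ G.neighborFinset v) : ℝ) ≤ g)
    (hg0 : 0 ≤ g)
    (hd : (1 - η) * (#A * #B) ≤ (#(G.interedges A B) : ℝ)) :
    (1 - η) ^ 2 * #B ≤ g + Fintype.card V / #A := by
  classical
  have hApos : (0 : ℝ) < #A := by exact_mod_cast hA.card_pos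
  rcases Finset.eq_empty_or_nonempty B with rfl | hB
  · simp only [Finset.card_empty, Nat.cast_zero, mul_zero]
    positivity
  have hBpos : (0 : ℝ) < #B := by exact_mod_cast hB.card_pos
  have hcs : ((#(G.interedges A B) : ℝ)) ^ 2 ≤
      #B * ∑ z ∈ B, ((#(A.filter fun x => G.Adj x z) : ℝ)) ^ 2 := by
    rw [interedges_eq_sum]
    push_cast
    exact sq_sum_le_card_mul_sum_sq
  have hle : ∑ z ∈ B, ((#(A.filter fun x => G.Adj x z) : ℝ)) ^ 2 ≤
      ∑ z : V, ((#(A.filter fun x => G.Adj x z) : ℝ)) ^ 2 :=
    Finset.sum_le_sum_of_subset_of_nonneg (Finset.subset_univ _) fun _ _ _ => by positivity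
  have hsum : ∑ z : V, ((#(A.filter fun x => G.Adj x z) : ℝ)) ^ 2 =
      ∑ x ∈ A, ∑ y ∈ A, (#(G.neighborFinset x ∩ G.neighborFinset y) : ℝ) := by
    exact_mod_cast sum_sq G A
  have hup : ∑ x ∈ A, ∑ y ∈ A, (#(G.neighborFinset x ∩ G.neighborFinset y) : ℝ) ≤
      #A * (Fintype.card V + #A * g) := by
    have : ∀ x ∈ A, ∑ y ∈ A, (#(G.neighborFinset x ∩ G.neighborFinset y) : ℝ) ≤
        Fintype.card V + #A * g := by
      intro x hx
      rw [← Finset.add_sum_erase A _ hx]
      refine add_le_add ?_ ?_
      · exact_mod_cast Finset.card_le_univ _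
      · calc ∑ y ∈ A.erase x, (#(G.neighborFinset x ∩ G.neighborFinset y) : ℝ)
            ≤ ∑ y ∈ A.erase x, g := by
              refine Finset.sum_le_sum fun y hy => hg x y ?_
              exact (Finset.ne_of_mem_erase hy).symm
          _ = #(A.erase x) * g := by rw [Finset.sum_const, nsmul_eq_mul]
          _ ≤ #A * g := by
              refine mul_le_mul_of_nonneg_right ?_ hg0
              exact_mod_cast Finset.card_le_card (Finset.erase_subset _ _)
    calc _ ≤ ∑ x ∈ A, (Fintype.card V + #A * g : ℝ) := Finset.sum_le_sum this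
      _ = _ := by rw [Finset.sum_const, nsmul_eq_mul]
  have h1 : ((1 - η) * (#A * #B)) ^ 2 ≤ #B * (#A * (Fintype.card V + #A * g)) := by
    have h0 : 0 ≤ (1 - η) * (#A * #B : ℝ) := by
      have : 0 ≤ 1 - η := by linarith
      positivity
    calc ((1 - η) * (#A * #B)) ^ 2 ≤ ((#(G.interedges A B) : ℝ)) ^ 2 :=
          pow_le_pow_left₀ h0 hd 2
      _ ≤ _ := hcs
      _ ≤ _ := by
        refine mul_le_mul_of_nonneg_left ?_ hBpos.le
        rw [hsum] at hle
        exact hle.trans hup
  have h2 : (#A * #B : ℝ) * #A * ((1 - η) ^ 2 * #B) ≤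
      (#A * #B : ℝ) * #A * (g + Fintype.card V / #A) := by
    have e1 : (#A * #B : ℝ) * #A * (g + Fintype.card V / #A) =
        #B * (#A * (Fintype.card V + #A * g)) := by
      field_simp
      ring
    rw [e1]
    calc _ = ((1 - η) * (#A * #B)) ^ 2 := by ring
      _ ≤ _ := h1
  exact le_of_mul_le_mul_left h2 (by positivity)

end twin

section greedy

lemma greedy_classes {α : Type*} [DecidableEq α] (F : α → α → Prop) [DecidableRel F]
    (hs : ∀ a b, F a b → F b a) (d T q : ℕ) (hT : 0 < T) (S : Finset α) :
    (∀ a ∈ S, #(S.filter (F a)) ≤ d) → d + #S / T < q →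
    ∃ c : α → ℕ, (∀ a ∈ S, c a < q) ∧ (∀ a ∈ S, ∀ b ∈ S, a ≠ b → F a b → c a ≠ c b) ∧
      ∀ i, #(S.filter fun a => c a = i) ≤ T := by
  classical
  induction S using Finset.induction_on with
  | empty =>
    intro _ _
    exact ⟨fun _ => 0, by simp, by simp, by simp⟩
  | insert a S ha ih =>
    intro hdeg hq
    have hdeg' : ∀ b ∈ S, #(S.filter (F b)) ≤ d := fun b hb =>
      (Finset.card_le_card (Finset.filter_subset_filter _ (Finset.subset_insert a S))).trans
        (hdeg b (Finset.mem_insert_of_mem hb))
    have hcard : #S ≤ #(insert a S) := Finset.card_le_card (Finset.subset_insert a S)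
    have hq' : d + #S / T < q :=
      lt_of_le_of_lt (Nat.add_le_add_left (Nat.div_le_div_right hcard) d) hq
    obtain ⟨c, hc1, hc2, hc3⟩ := ih hdeg' hq'
    set Full := (range q).filter fun i => T ≤ #(S.filter fun b => c b = i) with hFull
    have hFc : #Full ≤ #S / T := by
      rw [Nat.le_div_iff_mul_le hT]
      calc #Full * T = ∑ i ∈ Full, T := by rw [Finset.sum_const, smul_eq_mul]
        _ ≤ ∑ i ∈ Full, #(S.filter fun b => c b = i) :=
            Finset.sum_le_sum fun i hi => (Finset.mem_filter.1 hi).2
        _ ≤ ∑ i ∈ range q, #(S.filter fun b => c b = i) :=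
            Finset.sum_le_sum_of_subset (Finset.filter_subset _ _)
        _ = #S := by
            rw [← Finset.card_eq_sum_card_fiberwise]
            intro b hb
            exact Finset.mem_coe.2 (Finset.mem_range.2 (hc1 b hb))
    have hNb : #((S.filter (F a)).image c) ≤ d :=
      Finset.card_image_le.trans ((Finset.card_le_card
        (Finset.filter_subset_filter _ (Finset.subset_insert a S))).trans
          (hdeg a (Finset.mem_insert_self a S)))
    have hlt : #(Full ∪ (S.filter (F a)).image c) < #(range q) := by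
      rw [Finset.card_range]
      calc _ ≤ #Full + #((S.filter (F a)).image c) := Finset.card_union_le _ _
        _ ≤ #S / T + d := Nat.add_le_add hFc hNb
        _ < q := by omega
    obtain ⟨i, hi, hi'⟩ := Finset.exists_mem_notMem_of_card_lt_card hlt
    rw [Finset.mem_union, not_or] at hi'
    obtain ⟨hi1, hi2⟩ := hi'
    have hiT : #(S.filter fun b => c b = i) < T := by
      by_contra h
      exact hi1 (Finset.mem_filter.2 ⟨hi, not_lt.1 h⟩)
    have hupd : ∀ b ∈ S, Function.update c a i b = c b := by
      intro b hb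
      have hne : b ≠ a := by
        rintro rfl
        exact ha hb
      exact Function.update_of_ne hne _ _
    have hui : Function.update c a i a = i := Function.update_self _ _ _
    refine ⟨Function.update c a i, ?_, ?_, ?_⟩
    · intro b hb
      rcases Finset.mem_insert.1 hb with rfl | hb
      · rw [hui]; exact Finset.mem_range.1 hi
      · rw [hupd b hb]; exact hc1 b hb
    · intro b hb b' hb' hne hF
      rcases Finset.mem_insert.1 hb with rfl | hbS
      · rcases Finset.mem_insert.1 hb' with rfl | hb'S
        · exact absurd rfl hne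
        · rw [hui, hupd b' hb'S]
          intro h
          exact hi2 (Finset.mem_image.2 ⟨b', Finset.mem_filter.2 ⟨hb'S, hF⟩, h.symm⟩)
      · rcases Finset.mem_insert.1 hb' with rfl | hb'S
        · rw [hui, hupd b hbS]
          intro h
          exact hi2 (Finset.mem_image.2 ⟨b, Finset.mem_filter.2 ⟨hbS, hs _ _ hF⟩, h⟩)
        · rw [hupd b hbS, hupd b' hb'S]
          exact hc2 b hbS b' hb'S hne hF
    · intro j
      by_cases hj : j = i
      · subst hj
        have : (insert a S).filter (fun b => Function.update c a j b = j) ⊆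
            insert a (S.filter fun b => c b = j) := by
          intro b hb
          rw [Finset.mem_filter, Finset.mem_insert] at hb
          rcases hb with ⟨rfl | hbS, hb2⟩
          · exact Finset.mem_insert_self _ _
          · rw [hupd b hbS] at hb2
            exact Finset.mem_insert_of_mem (Finset.mem_filter.2 ⟨hbS, hb2⟩)
        exact (Finset.card_le_card this).trans
          ((Finset.card_insert_le _ _).trans (Nat.succ_le_of_lt hiT))
      · have : (insert a S).filter (fun b => Function.update c a i b = j) ⊆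
            (S.filter fun b => c b = j) := by
          intro b hb
          rw [Finset.mem_filter, Finset.mem_insert] at hb
          rcases hb with ⟨rfl | hbS, hb2⟩
          · rw [hui] at hb2; exact absurd hb2.symm hj
          · rw [hupd b hbS] at hb2
            exact Finset.mem_filter.2 ⟨hbS, hb2⟩
        exact (Finset.card_le_card this).trans (hc3 j)

end greedy

end Pool.Agent.Helper73.Vu
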