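import Mathlib
import Pool.Agent.Helper73.Vu.Basic

set_option autoImplicit false

namespace Pool.Agent.Helper73.Vu

open Finset

variable {V : Type*} [DecidableEq V] (G : SimpleGraph V) [DecidableRel G.Adj]

omit [DecidableEq V] in
/-- few vertices of `A` see almost all of a large subset of `B` -/
lemma few_bad (A B C C₀ : Finset V) (η ε₀ : ℝ)
    (he : 0 < ε₀) (he2 : ε₀ ≤ η / 2)
    (hU : G.IsUniform ε₀ A B) (hd : (G.edgeDensity A B : ℝ) ≤ 1 - η) (hC₀ : C₀ ⊆ A)
    (hC : C ⊆ B) (hCc : ε₀ * #B ≤ #C) (hA : A.Nonempty) (hB : B.Nonempty) :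
    (#(C₀.filter fun z => (#(C.filter fun y => ¬ G.Adj z y) : ℝ) < η / 2 * #C) : ℝ) <
      ε₀ * #A := by
  classical
  by_contra hcon
  rw [not_lt] at hcon
  set Z := C₀.filter fun z => (#(C.filter fun y => ¬ G.Adj z y) : ℝ) < η / 2 * #C with hZ
  have hApos : (0 : ℝ) < #A := by exact_mod_cast hA.card_pos
  have hBpos : (0 : ℝ) < #B := by exact_mod_cast hB.card_pos
  have hZpos : (0 : ℝ) < #Z := lt_of_lt_of_le (by positivity) hcon
  have hCpos : (0 : ℝ) < #C := lt_of_lt_of_le (by positivity) hCc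
  have h := hU ((Finset.filter_subset _ _).trans hC₀ : Z ⊆ A) hC (by rw [mul_comm]; exact hcon)
    (by rw [mul_comm]; exact hCc)
  rw [abs_lt] at h
  -- density of (Z, C) is at least 1 - η/2
  have hint : (1 - η / 2) * (#Z * #C : ℝ) ≤ (#(G.interedges Z C) : ℝ) := by
    have e : (#(G.interedges Z C) : ℝ) = ∑ z ∈ Z, (#(C.filter fun y => G.Adj z y) : ℝ) := by
      rw [SimpleGraph.interedges, Rel.interedges, Finset.card_filter, Finset.sum_product]
      push_cast
      refine Finset.sum_congr rfl fun z _ => ?_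
      rw [Finset.card_filter]
      push_cast
      rfl
    rw [e]
    have h1 : ∀ z ∈ Z, (1 - η / 2) * (#C : ℝ) ≤ (#(C.filter fun y => G.Adj z y) : ℝ) := by
      intro z hz
      have h2 := (Finset.mem_filter.1 hz).2
      have h3 : (#(C.filter fun y => G.Adj z y) : ℝ) + #(C.filter fun y => ¬ G.Adj z y) = #C := by
        exact_mod_cast Finset.card_filter_add_card_filter_not (fun y => G.Adj z y)
      linarith
    calc (1 - η / 2) * (#Z * #C : ℝ) = ∑ z ∈ Z, (1 - η / 2) * (#C : ℝ) := by
          rw [Finset.sum_const, nsmul_eq_mul]; ring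
      _ ≤ _ := Finset.sum_le_sum h1
  have hdens : (1 - η / 2 : ℝ) ≤ (G.edgeDensity Z C : ℝ) := by
    have : (G.edgeDensity Z C : ℝ) = #(G.interedges Z C) / (#Z * #C) := by
      rw [SimpleGraph.edgeDensity, Rel.edgeDensity]
      push_cast
      rfl
    rw [this, le_div_iff₀ (by positivity)]
    exact hint
  linarith [h.2]

lemma transversal [Nonempty V] (η ε₀ : ℝ) (T : ℕ) (hη : 0 < η) (hη1 : η ≤ 1) (he : 0 < ε₀)
    (he2 : ε₀ ≤ η / 2) (S : Finset (Finset V)) :
    #S ≤ T → (∀ A ∈ S, A.Nonempty) →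
    (∀ A ∈ S, ∀ B ∈ S, A ≠ B → G.IsUniform ε₀ A B ∧ (G.edgeDensity A B : ℝ) ≤ 1 - η) →
    ∀ (c : ℝ) (C : Finset V → Finset V), (∀ A ∈ S, C A ⊆ A) →
      (∀ A ∈ S, c * #A ≤ #(C A)) → (T : ℝ) * ε₀ ≤ c * (η / 2) ^ (#S) →
      ∃ x : Finset V → V, (∀ A ∈ S, x A ∈ C A) ∧
        ∀ A ∈ S, ∀ B ∈ S, A ≠ B → ¬ G.Adj (x A) (x B) := by
  classical
  induction S using Finset.induction_on with
  | empty =>
    intro _ _ _ c C _ _ _
    exact ⟨fun _ => Classical.arbitrary V, by simp, by simp⟩
  | insert A₀ S hA₀ ih =>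
    intro hT hne hU c C hCs hCc hTc
    have hcard : #(insert A₀ S) = #S + 1 := Finset.card_insert_of_notMem hA₀
    rw [hcard] at hT hTc
    have hT1 : (1 : ℝ) ≤ T := by exact_mod_cast (by omega : 1 ≤ T)
    have hη2 : η / 2 ≤ 1 := by linarith
    have hη0 : 0 < η / 2 := by linarith
    have hcpos : 0 < c := by
      by_contra h
      have h1 : c * (η / 2) ^ (#S + 1) ≤ 0 :=
        mul_nonpos_of_nonpos_of_nonneg (not_lt.1 h) (by positivity)
      have h2 : 0 < (T : ℝ) * ε₀ := by positivity
      linarith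
    have hcT : (T : ℝ) * ε₀ ≤ c := by
      calc (T : ℝ) * ε₀ ≤ c * (η / 2) ^ (#S + 1) := hTc
        _ ≤ c * 1 := by
            refine mul_le_mul_of_nonneg_left ?_ hcpos.le
            exact pow_le_one₀ hη0.le hη2
        _ = c := mul_one c
    have hce : ε₀ ≤ c := by
      have : 1 * ε₀ ≤ (T : ℝ) * ε₀ := mul_le_mul_of_nonneg_right hT1 he.le
      linarith
    have hmem0 : A₀ ∈ insert A₀ S := Finset.mem_insert_self _ _
    have hmem : ∀ B ∈ S, B ∈ insert A₀ S := fun B hB => Finset.mem_insert_of_mem hB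
    have hneq : ∀ B ∈ S, A₀ ≠ B := by
      rintro B hB rfl
      exact hA₀ hB
    have hA₀pos : (0 : ℝ) < #A₀ := by exact_mod_cast (hne A₀ hmem0).card_pos
    set Bad : Finset V → Finset V := fun B =>
      (C A₀).filter fun z => (#((C B).filter fun y => ¬ G.Adj z y) : ℝ) < η / 2 * #(C B)
      with hBad
    have hBadcard : ∀ B ∈ S, (#(Bad B) : ℝ) ≤ ε₀ * #A₀ := by
      intro B hB
      refine (few_bad G A₀ B (C B) (C A₀) η ε₀ he he2 (hU A₀ hmem0 B (hmem B hB)
        (hneq B hB)).1 (hU A₀ hmem0 B (hmem B hB) (hneq B hB)).2 (hCs A₀ hmem0)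
        (hCs B (hmem B hB)) ?_ (hne A₀ hmem0) (hne B (hmem B hB))).le
      have h1 := hCc B (hmem B hB)
      have h2 : ε₀ * (#B : ℝ) ≤ c * #B := mul_le_mul_of_nonneg_right hce (by positivity)
      linarith
    have hunion : (#(S.biUnion Bad) : ℝ) < #(C A₀) := by
      have h1 : (#(S.biUnion Bad) : ℝ) ≤ #S * (ε₀ * #A₀) := by
        calc (#(S.biUnion Bad) : ℝ) ≤ ∑ B ∈ S, (#(Bad B) : ℝ) := by
              exact_mod_cast Finset.card_biUnion_le
          _ ≤ ∑ B ∈ S, ε₀ * #A₀ := Finset.sum_le_sum hBadcard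
          _ = #S * (ε₀ * #A₀) := by rw [Finset.sum_const, nsmul_eq_mul]
      have h2 : (#S : ℝ) < T := by exact_mod_cast (by omega : #S < T)
      have h3 : (#S : ℝ) * (ε₀ * #A₀) < T * (ε₀ * #A₀) :=
        mul_lt_mul_of_pos_right h2 (by positivity)
      have h4 : (T : ℝ) * (ε₀ * #A₀) ≤ c * #A₀ := by
        rw [← mul_assoc]
        exact mul_le_mul_of_nonneg_right hcT hA₀pos.le
      have h5 := hCc A₀ hmem0
      linarith
    have hunion' : #(S.biUnion Bad) < #(C A₀) := by exact_mod_cast hunion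
    obtain ⟨z, hz, hz'⟩ := Finset.exists_mem_notMem_of_card_lt_card hunion'
    have hzgood : ∀ B ∈ S, η / 2 * (#(C B) : ℝ) ≤ #((C B).filter fun y => ¬ G.Adj z y) := by
      intro B hB
      by_contra h
      exact hz' (Finset.mem_biUnion.2 ⟨B, hB, Finset.mem_filter.2 ⟨hz, not_le.1 h⟩⟩)
    obtain ⟨x, hx1, hx2⟩ := ih (by omega) (fun A hA => hne A (hmem A hA))
      (fun A hA B hB => hU A (hmem A hA) B (hmem B hB)) (c * (η / 2))
      (fun B => (C B).filter fun y => ¬ G.Adj z y)
      (fun B hB => (Finset.filter_subset _ _).trans (hCs B (hmem B hB)))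
      (by
        intro B hB
        have h1 := hzgood B hB
        have h2 : η / 2 * (c * (#B : ℝ)) ≤ η / 2 * #(C B) :=
          mul_le_mul_of_nonneg_left (hCc B (hmem B hB)) hη0.le
        calc c * (η / 2) * (#B : ℝ) = η / 2 * (c * #B) := by ring
          _ ≤ _ := h2.trans h1)
      (by rw [mul_assoc, ← pow_succ']; exact hTc)
    have hy0 : Function.update x A₀ z A₀ = z := Function.update_self _ _ _
    have hyS : ∀ A ∈ S, Function.update x A₀ z A = x A := fun A hA =>
      Function.update_of_ne (hneq A hA).symm _ _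
    refine ⟨Function.update x A₀ z, ?_, ?_⟩
    · intro A hA
      rcases Finset.mem_insert.1 hA with rfl | hA
      · rw [hy0]; exact hz
      · rw [hyS A hA]
        exact (Finset.mem_filter.1 (hx1 A hA)).1
    · intro A hA B hB hAB
      rcases Finset.mem_insert.1 hA with hA' | hA'
      · rcases Finset.mem_insert.1 hB with hB' | hB'
        · exact absurd (hA'.trans hB'.symm) hAB
        · rw [hA', hy0, hyS B hB']
          exact (Finset.mem_filter.1 (hx1 B hB')).2
      · rcases Finset.mem_insert.1 hB with hB' | hB'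
        · rw [hB', hy0, hyS A hA']
          intro h
          exact (Finset.mem_filter.1 (hx1 A hA')).2 h.symm
        · rw [hyS A hA', hyS B hB']
          exact hx2 A hA' B hB' hAB

/-- colouring most of the union of few pairwise uniform, not too dense parts with as many
colours as there are vertices in one part -/
lemma group_colour [Nonempty V] (η ε₀ δ : ℝ) (T : ℕ) (hη : 0 < η) (hη1 : η ≤ 1) (he : 0 < ε₀)
    (he2 : ε₀ ≤ η / 2) (hδ : 0 < δ) (S : Finset (Finset V)) (hST : #S ≤ T)
    (hne : ∀ A ∈ S, A.Nonempty)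
    (hdisj : ∀ A ∈ S, ∀ B ∈ S, A ≠ B → Disjoint A B)
    (hU : ∀ A ∈ S, ∀ B ∈ S, A ≠ B → G.IsUniform ε₀ A B ∧ (G.edgeDensity A B : ℝ) ≤ 1 - η)
    (hTδ : (T : ℝ) * ε₀ ≤ δ * (η / 2) ^ T) :
    ∀ (m : ℕ) (C : Finset V → Finset V), (∀ A ∈ S, C A ⊆ A) → (∀ A ∈ S, #(C A) ≤ m) →
      ∃ (D : Finset V) (col : V → ℕ), D ⊆ S.biUnion C ∧ (∀ v ∈ D, col v < m) ∧
        (∀ u ∈ D, ∀ v ∈ D, G.Adj u v → col u ≠ col v) ∧
        ∀ A ∈ S, (#(C A \ D) : ℝ) ≤ δ * #A := by
  classical
  intro m
  induction m with
  | zero =>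
    intro C _ hC
    refine ⟨∅, fun _ => 0, by simp, by simp, by simp, ?_⟩
    intro A hA
    have : C A = ∅ := Finset.card_eq_zero.1 (Nat.le_zero.1 (hC A hA))
    rw [this]
    simp only [Finset.empty_sdiff, Finset.card_empty, Nat.cast_zero]
    positivity
  | succ m ih =>
    intro C hCs hCm
    set S' := S.filter fun A => δ * (#A : ℝ) < #(C A) with hS'
    have hS'S : ∀ A ∈ S', A ∈ S := fun A hA => (Finset.mem_filter.1 hA).1
    have hη0 : 0 < η / 2 := by linarith
    obtain ⟨x, hx1, hx2⟩ := transversal G η ε₀ T hη hη1 he he2 S'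
      ((Finset.card_le_card (Finset.filter_subset _ _)).trans hST)
      (fun A hA => hne A (hS'S A hA))
      (fun A hA B hB => hU A (hS'S A hA) B (hS'S B hB)) δ C
      (fun A hA => hCs A (hS'S A hA)) (fun A hA => (Finset.mem_filter.1 hA).2.le)
      (by
        refine hTδ.trans (mul_le_mul_of_nonneg_left ?_ hδ.le)
        exact pow_le_pow_of_le_one hη0.le (by linarith)
          ((Finset.card_le_card (Finset.filter_subset _ _)).trans hST))
    set C' : Finset V → Finset V := fun A => if A ∈ S' then (C A).erase (x A) else ∅ with hC'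
    have hC'C : ∀ A, C' A ⊆ C A := by
      intro A
      simp only [hC']
      split_ifs
      · exact Finset.erase_subset _ _
      · exact Finset.empty_subset _
    obtain ⟨D, col, hD1, hD2, hD3, hD4⟩ := ih C' (fun A hA => (hC'C A).trans (hCs A hA)) (by
      intro A hA
      simp only [hC']
      split_ifs with h
      · rw [Finset.card_erase_of_mem (hx1 A h)]
        have := hCm A hA
        omega
      · simp)
    set X := S'.image x with hX
    have hXD : ∀ v ∈ X, v ∉ D := by
      intro v hv hvD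
      obtain ⟨A, hA, rfl⟩ := Finset.mem_image.1 hv
      obtain ⟨B, hB, hB'⟩ := Finset.mem_biUnion.1 (hD1 hvD)
      by_cases hAB : A = B
      · subst hAB
        simp only [hC'] at hB'
        rw [if_pos hA] at hB'
        exact (Finset.notMem_erase _ _) hB'
      · have h1 : x A ∈ A := hCs A (hS'S A hA) (hx1 A hA)
        have h2 : x A ∈ B := hCs B hB (hC'C B hB')
        exact Finset.disjoint_left.1 (hdisj A (hS'S A hA) B hB hAB) h1 h2
    refine ⟨D ∪ X, fun v => if v ∈ X then m else col v, ?_, ?_, ?_, ?_⟩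
    · intro v hv
      rcases Finset.mem_union.1 hv with hv | hv
      · obtain ⟨B, hB, hB'⟩ := Finset.mem_biUnion.1 (hD1 hv)
        exact Finset.mem_biUnion.2 ⟨B, hB, hC'C B hB'⟩
      · obtain ⟨A, hA, rfl⟩ := Finset.mem_image.1 hv
        exact Finset.mem_biUnion.2 ⟨A, hS'S A hA, hx1 A hA⟩
    · intro v hv
      by_cases h : v ∈ X
      · simp [h]
      · simp only [h, if_false]
        rcases Finset.mem_union.1 hv with hv | hv
        · exact (hD2 v hv).trans (Nat.lt_succ_self m)
        · exact absurd hv h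
    · intro u hu v hv huv
      by_cases h : u ∈ X
      · by_cases h' : v ∈ X
        · obtain ⟨A, hA, rfl⟩ := Finset.mem_image.1 h
          obtain ⟨B, hB, rfl⟩ := Finset.mem_image.1 h'
          by_cases hAB : A = B
          · subst hAB
            exact absurd huv (G.loopless.irrefl _)
          · exact absurd huv (hx2 A hA B hB hAB)
        · simp only [h, h', if_true, if_false]
          have hvD : v ∈ D := by
            rcases Finset.mem_union.1 hv with hv | hv
            · exact hv
            · exact absurd hv h'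
          exact (hD2 v hvD).ne'
      · have huD : u ∈ D := by
          rcases Finset.mem_union.1 hu with hu | hu
          · exact hu
          · exact absurd hu h
        by_cases h' : v ∈ X
        · simp only [h, h', if_true, if_false]
          exact (hD2 u huD).ne
        · have hvD : v ∈ D := by
            rcases Finset.mem_union.1 hv with hv | hv
            · exact hv
            · exact absurd hv h'
          simp only [h, h', if_false]
          exact hD3 u huD v hvD huv
    · intro A hA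
      by_cases h : A ∈ S'
      · refine le_trans ?_ (hD4 A hA)
        have : C A \ (D ∪ X) ⊆ C' A \ D := by
          intro v hv
          rw [Finset.mem_sdiff, Finset.mem_union, not_or] at hv
          rw [Finset.mem_sdiff]
          refine ⟨?_, hv.2.1⟩
          simp only [hC']
          rw [if_pos h]
          refine Finset.mem_erase.2 ⟨?_, hv.1⟩
          rintro rfl
          exact hv.2.2 (Finset.mem_image.2 ⟨A, h, rfl⟩)
        exact_mod_cast Finset.card_le_card this
      · have h1 : (#(C A) : ℝ) ≤ δ * #A := by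
          by_contra h2
          exact h (Finset.mem_filter.2 ⟨hA, not_le.1 h2⟩)
        refine le_trans ?_ h1
        exact_mod_cast Finset.card_le_card Finset.sdiff_subset

end Pool.Agent.Helper73.Vu
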