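import Mathlib
import Pool.Agent.Helper73.Vu.Transversal

set_option autoImplicit false

namespace Pool.Agent.Helper73.Vu

open Finset

variable {V : Type*} [Fintype V] [DecidableEq V] (G : SimpleGraph V) [DecidableRel G.Adj]

lemma assemble (P : Finpartition (univ : Finset V)) (M : ℕ) (hM : ∀ A ∈ P.parts, #A ≤ M)
    (η ε₀ δ : ℝ) (T : ℕ) (hη : 0 < η) (hη1 : η ≤ 1) (he : 0 < ε₀)
    (he2 : ε₀ ≤ η / 2) (hδ : 0 < δ) (hTδ : (T : ℝ) * ε₀ ≤ δ * (η / 2) ^ T)
    (𝒢 : Finset (Finset V)) (h𝒢 : 𝒢 ⊆ P.parts) (q : ℕ) (c : Finset V → ℕ)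
    (hc1 : ∀ A ∈ 𝒢, c A < q)
    (hc2 : ∀ A ∈ 𝒢, ∀ B ∈ 𝒢, A ≠ B → c A = c B →
      G.IsUniform ε₀ A B ∧ (G.edgeDensity A B : ℝ) ≤ 1 - η)
    (hc3 : ∀ i, #(𝒢.filter fun A => c A = i) ≤ T) :
    ∃ L : ℕ, G.Colorable (q * M + L) ∧
      (L : ℝ) ≤ #(P.parts \ 𝒢) * M + δ * Fintype.card V := by
  classical
  rcases isEmpty_or_nonempty V with hV | hV
  · refine ⟨0, SimpleGraph.Colorable.of_isEmpty _, ?_⟩
    simp only [Nat.cast_zero]
    positivity
  have hgrp : ∀ i : ℕ, ∃ (D : Finset V) (col : V → ℕ), (∀ v ∈ D, col v < M) ∧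
        (∀ u ∈ D, ∀ v ∈ D, G.Adj u v → col u ≠ col v) ∧
        ∀ A ∈ 𝒢.filter (fun A => c A = i), (#(A \ D) : ℝ) ≤ δ * #A := by
    intro i
    have hsub : ∀ A ∈ 𝒢.filter (fun A => c A = i), A ∈ 𝒢 ∧ c A = i := fun A hA =>
      Finset.mem_filter.1 hA
    obtain ⟨D, col, -, h2, h3, h4⟩ := group_colour G η ε₀ δ T hη hη1 he he2 hδ
      (𝒢.filter (fun A => c A = i)) (hc3 i)
      (fun A hA => P.nonempty_of_mem_parts (h𝒢 (hsub A hA).1))
      (fun A hA B hB hAB => P.disjoint (h𝒢 (hsub A hA).1) (h𝒢 (hsub B hB).1) hAB)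
      (fun A hA B hB hAB => hc2 A (hsub A hA).1 B (hsub B hB).1 hAB
        ((hsub A hA).2.trans (hsub B hB).2.symm))
      hTδ M id (fun A _ => Finset.Subset.refl _)
      (fun A hA => hM A (h𝒢 (hsub A hA).1))
    exact ⟨D, col, h2, h3, h4⟩
  choose D col hD1 hD2 hD3 using hgrp
  set Lset : Finset V := univ.filter fun v => ¬ (P.part v ∈ 𝒢 ∧ v ∈ D (c (P.part v)))
    with hLset
  refine ⟨#Lset, ?_, ?_⟩
  · let f : V → (Fin q × Fin M) ⊕ {v // v ∈ Lset} := fun v =>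
      if h : P.part v ∈ 𝒢 ∧ v ∈ D (c (P.part v)) then
        Sum.inl (⟨c (P.part v), hc1 _ h.1⟩, ⟨col (c (P.part v)) v, hD1 _ v h.2⟩)
      else Sum.inr ⟨v, by simp only [hLset, Finset.mem_filter, Finset.mem_univ, true_and]; exact h⟩
    have hf : ∀ {u v : V}, G.Adj u v → f u ≠ f v := by
      intro u v huv heq
      by_cases hu : P.part u ∈ 𝒢 ∧ u ∈ D (c (P.part u))
      · by_cases hv : P.part v ∈ 𝒢 ∧ v ∈ D (c (P.part v))
        · simp only [f, dif_pos hu, dif_pos hv, Sum.inl.injEq, Prod.mk.injEq, Fin.mk.injEq] at heq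
          obtain ⟨h1, h2⟩ := heq
          have hv2 : v ∈ D (c (P.part u)) := by rw [h1]; exact hv.2
          refine hD2 (c (P.part u)) u hu.2 v hv2 huv ?_
          rw [h2, h1]
        · simp only [f, dif_pos hu, dif_neg hv] at heq
          exact absurd heq (by simp)
      · by_cases hv : P.part v ∈ 𝒢 ∧ v ∈ D (c (P.part v))
        · simp only [f, dif_neg hu, dif_pos hv] at heq
          exact absurd heq (by simp)
        · simp only [f, dif_neg hu, dif_neg hv, Sum.inr.injEq, Subtype.mk.injEq] at heq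
          subst heq
          exact G.loopless.irrefl _ huv
    have hcol := (SimpleGraph.Coloring.mk f hf).colorable
    have hcard : Fintype.card ((Fin q × Fin M) ⊕ {v // v ∈ Lset}) = q * M + #Lset := by
      simp
    rwa [hcard] at hcol
  · have hsub : Lset ⊆ P.parts.biUnion fun A => Lset ∩ A := by
      intro v hv
      exact Finset.mem_biUnion.2 ⟨P.part v, P.part_mem.2 (Finset.mem_univ v),
        Finset.mem_inter.2 ⟨hv, P.mem_part (Finset.mem_univ v)⟩⟩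
    have h1 : (#Lset : ℝ) ≤ ∑ A ∈ P.parts, (#(Lset ∩ A) : ℝ) := by
      exact_mod_cast (Finset.card_le_card hsub).trans Finset.card_biUnion_le
    have h2 : ∑ A ∈ P.parts, (#(Lset ∩ A) : ℝ) =
        ∑ A ∈ P.parts \ 𝒢, (#(Lset ∩ A) : ℝ) + ∑ A ∈ 𝒢, (#(Lset ∩ A) : ℝ) :=
      (Finset.sum_sdiff h𝒢).symm
    have h3 : ∑ A ∈ P.parts \ 𝒢, (#(Lset ∩ A) : ℝ) ≤ #(P.parts \ 𝒢) * M := by
      calc ∑ A ∈ P.parts \ 𝒢, (#(Lset ∩ A) : ℝ) ≤ ∑ A ∈ P.parts \ 𝒢, (M : ℝ) := by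
            refine Finset.sum_le_sum fun A hA => ?_
            exact_mod_cast (Finset.card_le_card Finset.inter_subset_right).trans
              (hM A (Finset.mem_sdiff.1 hA).1)
        _ = _ := by rw [Finset.sum_const, nsmul_eq_mul]
    have h4 : ∑ A ∈ 𝒢, (#(Lset ∩ A) : ℝ) ≤ δ * Fintype.card V := by
      calc ∑ A ∈ 𝒢, (#(Lset ∩ A) : ℝ) ≤ ∑ A ∈ 𝒢, δ * (#A : ℝ) := by
            refine Finset.sum_le_sum fun A hA => ?_
            have hs : Lset ∩ A ⊆ A \ D (c A) := by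
              intro v hv
              obtain ⟨hv1, hv2⟩ := Finset.mem_inter.1 hv
              have hpart : P.part v = A := P.part_eq_of_mem (h𝒢 hA) hv2
              refine Finset.mem_sdiff.2 ⟨hv2, fun hvD => ?_⟩
              exact (Finset.mem_filter.1 hv1).2 (by rw [hpart]; exact ⟨hA, hvD⟩)
            have h5 := hD3 (c A) A (Finset.mem_filter.2 ⟨hA, rfl⟩)
            have h6 : (#(Lset ∩ A) : ℝ) ≤ #(A \ D (c A)) := by
              exact_mod_cast Finset.card_le_card hs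
            linarith
        _ = δ * ∑ A ∈ 𝒢, (#A : ℝ) := by rw [Finset.mul_sum]
        _ ≤ δ * Fintype.card V := by
            refine mul_le_mul_of_nonneg_left ?_ hδ.le
            have h7 : ∑ A ∈ 𝒢, #A ≤ ∑ A ∈ P.parts, #A := Finset.sum_le_sum_of_subset h𝒢
            rw [P.sum_card_parts, Finset.card_univ] at h7
            exact_mod_cast h7
    linarith

end Pool.Agent.Helper73.Vu
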