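import Mathlib
import Pool.Agent.Helper73.Vu.Assemble

set_option autoImplicit false

namespace Pool.Agent.Helper73.Vu

open Finset

universe u

section step

variable {V : Type u} [Fintype V] [DecidableEq V] (G : SimpleGraph V) [DecidableRel G.Adj]

open Classical in
/-- the parts forming a non-uniform pair with `A` -/
noncomputable def nuSet (P : Finpartition (univ : Finset V)) (ε₀ : ℝ) (A : Finset V) :
    Finset (Finset V) :=
  P.parts.filter fun B => A ≠ B ∧ ¬ G.IsUniform ε₀ A B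

lemma mem_nuSet (P : Finpartition (univ : Finset V)) (ε₀ : ℝ) (A B : Finset V) :
    B ∈ nuSet G P ε₀ A ↔ B ∈ P.parts ∧ A ≠ B ∧ ¬ G.IsUniform ε₀ A B := by
  rw [nuSet, Finset.mem_filter]

open Classical in
/-- the parts forming an almost complete pair with `A` -/
noncomputable def dnSet (P : Finpartition (univ : Finset V)) (η : ℝ) (A : Finset V) :
    Finset (Finset V) :=
  P.parts.filter fun B => A ≠ B ∧ 1 - η < (G.edgeDensity A B : ℝ)

lemma mem_dnSet (P : Finpartition (univ : Finset V)) (η : ℝ) (A B : Finset V) :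
    B ∈ dnSet G P η A ↔ B ∈ P.parts ∧ A ≠ B ∧ 1 - η < (G.edgeDensity A B : ℝ) := by
  rw [dnSet, Finset.mem_filter]

open Classical in
/-- the parts with many non-uniform partners -/
noncomputable def badSet (P : Finpartition (univ : Finset V)) (ε₀ β : ℝ) :
    Finset (Finset V) :=
  P.parts.filter fun A => β * #P.parts < #(nuSet G P ε₀ A)

lemma mem_badSet (P : Finpartition (univ : Finset V)) (ε₀ β : ℝ) (A : Finset V) :
    A ∈ badSet G P ε₀ β ↔ A ∈ P.parts ∧ β * #P.parts < #(nuSet G P ε₀ A) := by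
  rw [badSet, Finset.mem_filter]

lemma few_bad_parts
    (P : Finpartition (univ : Finset V)) (ε₀ β : ℝ) (hβ : 0 < β) (hβ2 : ε₀ ≤ β ^ 2)
    (hP : P.IsUniform G ε₀) (he : 0 < ε₀) :
    (#(badSet G P ε₀ β) : ℝ) ≤ β * #P.parts := by
  classical
  set k := #P.parts with hk
  rcases Nat.eq_zero_or_pos k with hk0 | hk0
  · have : P.parts = ∅ := Finset.card_eq_zero.1 hk0
    have h2 : badSet G P ε₀ β = ∅ := by
      rw [badSet, this, Finset.filter_empty]
    simp [h2, hk0]
  have hkpos : (0 : ℝ) < k := by exact_mod_cast hk0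
  have h1 : (#(badSet G P ε₀ β) : ℝ) * (β * k) ≤ #(P.nonUniforms G ε₀) := by
    have h2 : (#(P.nonUniforms G ε₀) : ℝ) =
        ∑ A ∈ P.parts, (#(nuSet G P ε₀ A) : ℝ) := by
      have : P.nonUniforms G ε₀ =
          (P.parts ×ˢ P.parts).filter fun p => p.1 ≠ p.2 ∧ ¬ G.IsUniform ε₀ p.1 p.2 := by
        ext ⟨a, b⟩
        rw [Finpartition.mk_mem_nonUniforms, Finset.mem_filter, Finset.mem_product]
        tauto
      rw [this, Finset.card_filter, Finset.sum_product]
      push_cast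
      refine Finset.sum_congr rfl fun A _ => ?_
      rw [nuSet, Finset.card_filter]
      push_cast
      rfl
    rw [h2]
    calc (#(badSet G P ε₀ β) : ℝ) * (β * k) = ∑ A ∈ badSet G P ε₀ β, β * k := by
          rw [Finset.sum_const, nsmul_eq_mul]
      _ ≤ ∑ A ∈ badSet G P ε₀ β, (#(nuSet G P ε₀ A) : ℝ) :=
          Finset.sum_le_sum fun A hA => ((mem_badSet G P ε₀ β A).1 hA).2.le
      _ ≤ _ := Finset.sum_le_sum_of_subset_of_nonneg
          (fun A hA => ((mem_badSet G P ε₀ β A).1 hA).1)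
          fun _ _ _ => Nat.cast_nonneg _
  have h3 : (#(P.nonUniforms G ε₀) : ℝ) ≤ (k : ℝ) * k * β ^ 2 := by
    have h4 : (#(P.nonUniforms G ε₀) : ℝ) ≤ ((k * (k - 1) : ℕ) : ℝ) * ε₀ := hP
    have h5 : ((k * (k - 1) : ℕ) : ℝ) ≤ (k : ℝ) * k := by
      exact_mod_cast Nat.mul_le_mul_left k (Nat.sub_le k 1)
    calc _ ≤ ((k * (k - 1) : ℕ) : ℝ) * ε₀ := h4
      _ ≤ (k : ℝ) * k * ε₀ := mul_le_mul_of_nonneg_right h5 he.le
      _ ≤ _ := mul_le_mul_of_nonneg_left hβ2 (by positivity)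
  have h6 : (#(badSet G P ε₀ β) : ℝ) * (β * k) ≤ (β * k) * (β * k) := by
    calc _ ≤ (k : ℝ) * k * β ^ 2 := h1.trans h3
      _ = _ := by ring
  exact le_of_mul_le_mul_right h6 (by positivity)

lemma few_dense
    (P : Finpartition (univ : Finset V)) (η g : ℝ) (m : ℕ) (hη0 : 0 < η) (hη : η ≤ 1 / 16)
    (hm : ∀ A ∈ P.parts, m ≤ #A) (hm0 : 0 < m)
    (hg : ∀ u v : V, u ≠ v → (#(G.neighborFinset u ∩ G.neighborFinset v) : ℝ) ≤ g)
    (hg0 : 0 ≤ g) (A : Finset V) (hA : A ∈ P.parts) :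
    (#(dnSet G P η A) : ℝ) * m ≤
      (g + Fintype.card V / m) * (1 + 4 * η) := by
  classical
  set Dn := dnSet G P η A with hDn
  set U := Dn.biUnion id with hU
  have hsub : ∀ B ∈ Dn, B ∈ P.parts := fun B hB => ((mem_dnSet G P η A B).1 hB).1
  have hpd : (Dn : Set (Finset V)).PairwiseDisjoint id := by
    intro B hB B' hB' hne
    exact P.disjoint (hsub B hB) (hsub B' hB') hne
  have hUc : #U = ∑ B ∈ Dn, #B := by
    rw [hU, Finset.card_biUnion hpd]
    rfl
  have hAne : A.Nonempty := P.nonempty_of_mem_parts hA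
  have hApos : (0 : ℝ) < #A := by exact_mod_cast hAne.card_pos
  have hint : (1 - η) * (#A * #U) ≤ (#(G.interedges A U) : ℝ) := by
    rw [interedges_eq_sum, hU, Finset.sum_biUnion hpd]
    have h1 : ∀ B ∈ Dn, (1 - η) * (#A * #B) ≤
        ((∑ z ∈ id B, #(A.filter fun x => G.Adj x z) : ℕ) : ℝ) := by
      intro B hB
      rw [id, ← interedges_eq_sum]
      have h2 := ((mem_dnSet G P η A B).1 hB).2.2
      have hBpos : (0 : ℝ) < #B := by
        exact_mod_cast (P.nonempty_of_mem_parts (hsub B hB)).card_pos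
      have h3 : (G.edgeDensity A B : ℝ) = #(G.interedges A B) / (#A * #B) := by
        rw [SimpleGraph.edgeDensity, Rel.edgeDensity]
        push_cast
        rfl
      rw [h3, lt_div_iff₀ (by positivity)] at h2
      exact h2.le
    have h4 : (1 - η) * (#A * (#(Dn.biUnion id) : ℝ)) = ∑ B ∈ Dn, (1 - η) * (#A * #B) := by
      have : (#(Dn.biUnion id) : ℝ) = ∑ B ∈ Dn, (#B : ℝ) := by exact_mod_cast hUc
      rw [this, Finset.mul_sum, Finset.mul_sum]
    rw [h4]
    push_cast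
    refine Finset.sum_le_sum fun B hB => ?_
    have := h1 B hB
    push_cast at this
    exact this
  have hdb := dense_bound G A U g η (by linarith) hAne hg hg0 hint
  have hmpos : (0 : ℝ) < m := by exact_mod_cast hm0
  have hmA : (m : ℝ) ≤ #A := by exact_mod_cast hm A hA
  have h5 : (Fintype.card V : ℝ) / #A ≤ Fintype.card V / m :=
    div_le_div_of_nonneg_left (Nat.cast_nonneg _) hmpos hmA
  have h6 : (#Dn : ℝ) * m ≤ #U := by
    rw [hUc]
    have : #Dn * m ≤ ∑ B ∈ Dn, #B := by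
      calc #Dn * m = ∑ B ∈ Dn, m := by rw [Finset.sum_const, smul_eq_mul]
        _ ≤ _ := Finset.sum_le_sum fun B hB => hm B (hsub B hB)
    exact_mod_cast this
  have h7 : (#U : ℝ) ≤ (1 + 4 * η) * ((1 - η) ^ 2 * #U) := by
    have h8 : 1 ≤ (1 + 4 * η) * (1 - η) ^ 2 := by nlinarith [mul_pos hη0 hη0]
    calc (#U : ℝ) = 1 * #U := (one_mul _).symm
      _ ≤ ((1 + 4 * η) * (1 - η) ^ 2) * #U := mul_le_mul_of_nonneg_right h8 (Nat.cast_nonneg _)
      _ = _ := by ring
  calc (#Dn : ℝ) * m ≤ #U := h6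
    _ ≤ (1 + 4 * η) * ((1 - η) ^ 2 * #U) := h7
    _ ≤ (1 + 4 * η) * (g + Fintype.card V / m) := by
        refine mul_le_mul_of_nonneg_left ?_ (by linarith)
        linarith
    _ = _ := by ring

end step

lemma numeric (g n e m k T R q d Bd L β η δ : ℝ) (he0 : 0 < e) (he1 : e ≤ 1)
    (hβ : β = e / 16) (hη : η = e / 16) (hδ : δ = e / 16)
    (hg0 : 0 ≤ g) (hgn : g ≤ n) (hm : 16 / e ≤ m) (hmk : m * k ≤ n) (hk : 16 / e ≤ k)
    (hT : 8 / e ≤ T) (hnk : 16 * k / e ≤ n)
    (hR : R = (g + 2 * k) * (1 + 4 * η)) (hd : d ≤ β * k + R / m)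
    (hq : q ≤ d + k / T + 1) (hB : Bd ≤ β * k) (hL : L ≤ Bd * (m + 1) + δ * n) :
    q * (m + 1) + L ≤ g + e * n := by
  have h16 : 0 < 16 / e := by positivity
  have hm0 : 0 < m := lt_of_lt_of_le h16 hm
  have hk0 : 0 < k := lt_of_lt_of_le h16 hk
  have hT0 : 0 < T := lt_of_lt_of_le (by positivity) hT
  have h1T : k / T ≤ k * (e / 8) := by
    rw [div_le_iff₀ hT0]
    have : 1 ≤ e / 8 * T := by
      rw [div_le_iff₀ he0] at hT
      linarith
    calc k = k * 1 := (mul_one k).symm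
      _ ≤ k * (e / 8 * T) := mul_le_mul_of_nonneg_left this hk0.le
      _ = _ := by ring
  have h1k : 1 ≤ k * (e / 16) := by
    rw [div_le_iff₀ he0] at hk
    linarith
  have h1m : 1 / m ≤ e / 16 := by
    rw [div_le_iff₀ hm0]
    rw [div_le_iff₀ he0] at hm
    linarith
  have hn0 : 0 ≤ n := hg0.trans hgn
  have hR0 : 0 ≤ R := by
    rw [hR]
    have : 0 < η := by rw [hη]; positivity
    positivity
  have hkm : k * (m + 1) ≤ n + k := by nlinarith
  have hm10 : 0 < m + 1 := by linarith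
  -- the first part
  have hA : (q - R / m) * (m + 1) ≤ (e / 4) * (n + k) := by
    have h2 : q - R / m ≤ k * (e / 4) := by
      have : β * k = k * (e / 16) := by rw [hβ]; ring
      nlinarith
    calc (q - R / m) * (m + 1) ≤ (k * (e / 4)) * (m + 1) :=
          mul_le_mul_of_nonneg_right h2 hm10.le
      _ = (e / 4) * (k * (m + 1)) := by ring
      _ ≤ _ := mul_le_mul_of_nonneg_left hkm (by positivity)
  have hB' : R / m * (m + 1) ≤ g + (3 / 8 * e) * n + 3 * k := by
    have h3 : R / m * (m + 1) = R * (1 + 1 / m) := by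
      field_simp
    rw [h3]
    have h4 : R * (1 + 1 / m) ≤ R * (1 + e / 16) :=
      mul_le_mul_of_nonneg_left (by linarith) hR0
    have h5 : R * (1 + e / 16) = (g + 2 * k) * ((1 + e / 4) * (1 + e / 16)) := by
      rw [hR, hη]; ring
    have h6 : (1 + e / 4) * (1 + e / 16) ≤ 1 + 3 / 8 * e := by nlinarith
    have h7 : (g + 2 * k) * ((1 + e / 4) * (1 + e / 16)) ≤ (g + 2 * k) * (1 + 3 / 8 * e) :=
      mul_le_mul_of_nonneg_left h6 (by positivity)
    have h8 : (g + 2 * k) * (1 + 3 / 8 * e) ≤ g + (3 / 8 * e) * n + 3 * k := by nlinarith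
    linarith
  have hC : L ≤ (e / 16) * (n + k) + e / 16 * n := by
    have h9 : Bd * (m + 1) ≤ (e / 16) * (n + k) := by
      calc Bd * (m + 1) ≤ (β * k) * (m + 1) := mul_le_mul_of_nonneg_right hB hm10.le
        _ = (e / 16) * (k * (m + 1)) := by rw [hβ]; ring
        _ ≤ _ := mul_le_mul_of_nonneg_left hkm (by positivity)
    rw [hδ] at hL
    linarith
  have hD : 16 * k ≤ e * n := by
    rw [div_le_iff₀ he0] at hnk
    linarith
  have hE : e * k ≤ k := by nlinarith
  have : q * (m + 1) = (q - R / m) * (m + 1) + R / m * (m + 1) := by ring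
  rw [this]
  nlinarith

/-- **Dense case.** -/
theorem dense_vu (ε : ℝ) (hε : 0 < ε) : ∃ N : ℕ, ∀ (V : Type u) [Fintype V] [DecidableEq V]
    (G : SimpleGraph V) [DecidableRel G.Adj] (g : ℝ), N ≤ Fintype.card V →
    (∀ u v : V, u ≠ v → (#(G.neighborFinset u ∩ G.neighborFinset v) : ℝ) ≤ g) →
    ∃ k : ℕ, G.Colorable k ∧ (k : ℝ) ≤ g + ε * Fintype.card V := by
  classical
  set e : ℝ := min ε 1 with he
  have he0 : 0 < e := lt_min hε one_pos
  have he1 : e ≤ 1 := min_le_right _ _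
  have heε : e ≤ ε := min_le_left _ _
  set T : ℕ := ⌈8 / e⌉₊ with hT
  have hTe : 8 / e ≤ (T : ℝ) := Nat.le_ceil _
  have hT0 : 0 < T := Nat.ceil_pos.2 (by positivity)
  have hT0r : (0 : ℝ) < T := by exact_mod_cast hT0
  set ε₀ : ℝ := min ((e / 16) ^ 2) (min (e / 16 / 2) ((e / 16) * (e / 16 / 2) ^ T / T)) with hε₀
  have hε₀0 : 0 < ε₀ := by
    refine lt_min (by positivity) (lt_min (by positivity) (by positivity))
  have hε₀1 : ε₀ ≤ (e / 16) ^ 2 := min_le_left _ _
  have hε₀2 : ε₀ ≤ e / 16 / 2 := (min_le_right _ _).trans (min_le_left _ _)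
  have hε₀3 : ε₀ ≤ (e / 16) * (e / 16 / 2) ^ T / T := (min_le_right _ _).trans (min_le_right _ _)
  have hTε : (T : ℝ) * ε₀ ≤ (e / 16) * (e / 16 / 2) ^ T := by
    rw [le_div_iff₀ hT0r] at hε₀3
    linarith
  set l : ℕ := ⌈16 / e⌉₊ with hl
  have hle : 16 / e ≤ (l : ℝ) := Nat.le_ceil _
  set K : ℕ := SzemerediRegularity.bound ε₀ l with hK
  have hK0 : 0 < K := SzemerediRegularity.bound_pos ε₀ l
  have hlK : l ≤ K := SzemerediRegularity.le_bound ε₀ l
  refine ⟨⌈40 * K / e⌉₊, ?_⟩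
  intro V _ _ G _ g hN hg
  set n : ℕ := Fintype.card V with hn
  have hKr : (1 : ℝ) ≤ K := by exact_mod_cast hK0
  have hNn : 40 * (K : ℝ) / e ≤ n := (Nat.le_ceil _).trans (by exact_mod_cast hN)
  have hKe : (K : ℝ) ≤ K / e := by
    rw [le_div_iff₀ he0]
    nlinarith
  have h40 : 40 * (K : ℝ) ≤ n := by
    have : 40 * (K : ℝ) / e = 40 * (K / e) := by ring
    rw [this] at hNn
    linarith
  have hn2 : 1 < n := by
    have : (1 : ℝ) < n := by linarith
    exact_mod_cast this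
  -- g is nonnegative
  have hg0 : 0 ≤ g := by
    obtain ⟨u, v, huv⟩ := Fintype.one_lt_card_iff.1 (hn ▸ hn2 : 1 < Fintype.card V)
    exact (Nat.cast_nonneg _).trans (hg u v huv)
  rcases le_or_gt (n : ℝ) g with hgn | hgn
  · refine ⟨n, G.colorable_of_fintype, ?_⟩
    have : 0 ≤ ε * (n : ℝ) := by positivity
    linarith
  obtain ⟨P, hP1, hP2, hP3, hP4⟩ := szemeredi_regularity G (ε := ε₀) (l := l) hε₀0 (by
    have : (l : ℝ) ≤ n := by
      have : (l : ℝ) ≤ K := by exact_mod_cast hlK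
      linarith
    exact_mod_cast this)
  set k : ℕ := #P.parts with hk
  have hk0 : 0 < k := by
    have : (0 : ℝ) < l := lt_of_lt_of_le (by positivity) hle
    have : 0 < l := by exact_mod_cast this
    omega
  have hkr : (0 : ℝ) < k := by exact_mod_cast hk0
  have hkK : (k : ℝ) ≤ K := by exact_mod_cast hP3
  have hk16 : 16 / e ≤ (k : ℝ) := hle.trans (by exact_mod_cast hP2)
  set m : ℕ := n / k with hm
  have hmk : (m : ℝ) * k ≤ n := by exact_mod_cast Nat.div_mul_le_self n k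
  have hm1 : (n : ℝ) / k < m + 1 := by
    rw [div_lt_iff₀ hkr]
    have : n < (n / k + 1) * k := by
      rw [Nat.add_mul, one_mul, mul_comm]
      exact Nat.lt_mul_div_succ n hk0 |>.trans_eq (by ring)
    exact_mod_cast this
  have hnk : 40 / e ≤ (n : ℝ) / k := by
    rw [le_div_iff₀ hkr]
    calc 40 / e * (k : ℝ) ≤ 40 / e * K := mul_le_mul_of_nonneg_left hkK (by positivity)
      _ = 40 * K / e := by ring
      _ ≤ n := hNn
  have h1e : 1 ≤ 1 / e := by
    rw [le_div_iff₀ he0]; linarith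
  have h40e : 40 / e = 40 * (1 / e) := by ring
  have h16e : 16 / e = 16 * (1 / e) := by ring
  have hm16 : 16 / e ≤ (m : ℝ) := by
    rw [h16e]
    rw [h40e] at hnk
    linarith
  have hmr : (0 : ℝ) < m := lt_of_lt_of_le (by positivity) hm16
  have hm0 : 0 < m := by exact_mod_cast hmr
  have hnm : (n : ℝ) / m ≤ 2 * k := by
    rw [div_le_iff₀ hmr]
    have h1 : (n : ℝ) / k ≤ 2 * m := by linarith [show (1 : ℝ) ≤ m from by exact_mod_cast hm0]
    rw [div_le_iff₀ hkr] at h1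
    linarith
  have hmA : ∀ A ∈ P.parts, m ≤ #A := by
    intro A hA
    have := hP1.average_le_card_part hA
    rwa [Finset.card_univ] at this
  have hMA : ∀ A ∈ P.parts, #A ≤ m + 1 := by
    intro A hA
    have := hP1.card_part_le_average_add_one hA
    rwa [Finset.card_univ] at this
  set β : ℝ := e / 16 with hβ
  set R : ℝ := (g + 2 * k) * (1 + 4 * (e / 16)) with hR
  set 𝒢 : Finset (Finset V) := P.parts \ badSet G P ε₀ β with h𝒢
  have h𝒢P : 𝒢 ⊆ P.parts := Finset.sdiff_subset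
  have hbad : (#(P.parts \ 𝒢) : ℝ) ≤ β * k := by
    have h1 := few_bad_parts G P ε₀ β (by positivity) hε₀1 hP4 hε₀0
    have h2 : P.parts \ 𝒢 ⊆ badSet G P ε₀ β := by
      intro A hA
      rw [Finset.mem_sdiff] at hA
      by_contra h
      exact hA.2 (Finset.mem_sdiff.2 ⟨hA.1, h⟩)
    have h3 : (#(P.parts \ 𝒢) : ℝ) ≤ #(badSet G P ε₀ β) := by
      exact_mod_cast Finset.card_le_card h2
    exact h3.trans h1
  let F : Finset V → Finset V → Prop := fun A B =>
    A ≠ B ∧ (¬ G.IsUniform ε₀ A B ∨ 1 - e / 16 < (G.edgeDensity A B : ℝ))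
  have hFs : ∀ A B, F A B → F B A := by
    rintro A B ⟨h1, h2⟩
    refine ⟨h1.symm, ?_⟩
    rcases h2 with h2 | h2
    · exact Or.inl fun h => h2 h.symm
    · right
      have : G.edgeDensity B A = G.edgeDensity A B := by
        rw [SimpleGraph.edgeDensity_comm]
      rw [this]; exact h2
  set d : ℕ := ⌊β * k + R / m⌋₊ with hd
  have hR0 : 0 ≤ R := by positivity
  have hdeg : ∀ A ∈ 𝒢, #(𝒢.filter (F A)) ≤ d := by
    intro A hA
    refine Nat.le_floor ?_
    have hAP : A ∈ P.parts := h𝒢P hA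
    have h1 : (#(nuSet G P ε₀ A) : ℝ) ≤ β * k := by
      by_contra h
      exact (Finset.mem_sdiff.1 hA).2 ((mem_badSet G P ε₀ β A).2 ⟨hAP, not_le.1 h⟩)
    have h2 := few_dense G P (e / 16) g m (by positivity) (by linarith) hmA hm0 hg hg0 A hAP
    have h3 : (#(dnSet G P (e / 16) A) : ℝ) ≤ R / m := by
      rw [le_div_iff₀ hmr]
      refine h2.trans ?_
      rw [hR]
      refine mul_le_mul_of_nonneg_right ?_ (by positivity)
      linarith
    have h4 : 𝒢.filter (F A) ⊆ nuSet G P ε₀ A ∪ dnSet G P (e / 16) A := by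
      intro B hB
      obtain ⟨hB1, hB2, hB3⟩ := Finset.mem_filter.1 hB
      rw [Finset.mem_union, mem_nuSet, mem_dnSet]
      rcases hB3 with h | h
      · exact Or.inl ⟨h𝒢P hB1, hB2, h⟩
      · exact Or.inr ⟨h𝒢P hB1, hB2, h⟩
    have h5 : (#(𝒢.filter (F A)) : ℝ) ≤ #(nuSet G P ε₀ A) + #(dnSet G P (e / 16) A) := by
      exact_mod_cast (Finset.card_le_card h4).trans (Finset.card_union_le _ _)
    linarith
  set q : ℕ := d + k / T + 1 with hq
  obtain ⟨c, hc1, hc2, hc3⟩ := greedy_classes F hFs d T q hT0 𝒢 hdeg (by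
    have : #𝒢 / T ≤ k / T := Nat.div_le_div_right (Finset.card_le_card h𝒢P)
    omega)
  obtain ⟨L, hL1, hL2⟩ := assemble G P (m + 1) hMA (e / 16) ε₀ (e / 16) T (by positivity)
    (by linarith) hε₀0 hε₀2 (by positivity) hTε 𝒢 h𝒢P q c hc1 (by
      intro A hA B hB hAB hcAB
      by_contra hcon
      refine hc2 A hA B hB hAB ⟨hAB, ?_⟩ hcAB
      by_contra h
      rw [not_or, not_not, not_lt] at h
      exact hcon h) hc3
  refine ⟨q * (m + 1) + L, hL1, ?_⟩
  have hfin := numeric g n e m k T R q d (#(P.parts \ 𝒢)) L β (e / 16) (e / 16) he0 he1 hβ rfl rfl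
    hg0 hgn.le hm16 hmk hk16 hTe (by
      calc 16 * (k : ℝ) / e ≤ 40 * K / e := by
            refine div_le_div_of_nonneg_right ?_ he0.le
            linarith
        _ ≤ n := hNn) rfl (Nat.floor_le (by positivity)) (by
      rw [hq]
      push_cast
      have : ((k / T : ℕ) : ℝ) ≤ (k : ℝ) / T := Nat.cast_div_le
      linarith) hbad (by
      push_cast at hL2
      exact hL2)
  push_cast
  have h10 : e * (n : ℝ) ≤ ε * n := mul_le_mul_of_nonneg_right heε (Nat.cast_nonneg _)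
  linarith

end Pool.Agent.Helper73.Vu
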