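import Mathlib
import Pool.Agent.Helper73.Vu.Main

set_option autoImplicit false

namespace Pool.Agent.Helper73.Vu.DenseGraphsOld

/-- The bound conjectured by Vu, for all graphs with at most `C * Δ` vertices: for all `ι > 0` and
`C` there is `Δ₀` such that for every `σ` in `[0, 1]`, every finite graph with maximum degree
`Δ ≥ Δ₀`, with at most `C * Δ` vertices, in which any two distinct vertices have at most
`(1 - σ) * Δ` common neighbours, can be properly coloured with at most `(1 - σ + ι) * Δ`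
colours. -/
theorem result :
    ∀ ι : ℝ, 0 < ι → ∀ C : ℝ,
      ∃ Δ₀ : ℕ, ∀ σ : ℝ, 0 ≤ σ → σ ≤ 1 →
        ∀ (V : Type) [Fintype V] [DecidableEq V] (G : SimpleGraph V) [DecidableRel G.Adj],
        Δ₀ ≤ G.maxDegree →
        (Fintype.card V : ℝ) ≤ C * (G.maxDegree : ℝ) →
        (∀ u v : V, u ≠ v →
          ((G.neighborFinset u ∩ G.neighborFinset v).card : ℝ) ≤ (1 - σ) * (G.maxDegree : ℝ)) →
        ∃ k : ℕ, G.Colorable k ∧ (k : ℝ) ≤ (1 - σ + ι) * (G.maxDegree : ℝ) := by
  intro ι hι C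
  have hC : 0 < max C 1 := lt_of_lt_of_le one_pos (le_max_right _ _)
  obtain ⟨N, hN⟩ := Pool.Agent.Helper73.Vu.dense_vu (ι / max C 1) (div_pos hι hC)
  refine ⟨N + 1, ?_⟩
  intro σ _ _ V _ _ G _ hΔ hV hcod
  have hne : Nonempty V := by
    by_contra h
    rw [not_nonempty_iff] at h
    have : G.maxDegree = 0 := by
      rw [← Nat.le_zero]
      exact G.maxDegree_le_of_forall_degree_le 0 fun v => (h.false v).elim
    omega
  have hcard : N ≤ Fintype.card V := by
    have := G.maxDegree_lt_card_verts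
    omega
  obtain ⟨k, hk1, hk2⟩ := hN V G ((1 - σ) * (G.maxDegree : ℝ)) hcard hcod
  refine ⟨k, hk1, hk2.trans ?_⟩
  have h1 : (Fintype.card V : ℝ) ≤ max C 1 * (G.maxDegree : ℝ) :=
    hV.trans (mul_le_mul_of_nonneg_right (le_max_left _ _) (Nat.cast_nonneg _))
  have h2 : ι / max C 1 * (Fintype.card V : ℝ) ≤ ι * (G.maxDegree : ℝ) := by
    calc ι / max C 1 * (Fintype.card V : ℝ) ≤ ι / max C 1 * (max C 1 * (G.maxDegree : ℝ)) :=
          mul_le_mul_of_nonneg_left h1 (by positivity)
      _ = ι * (G.maxDegree : ℝ) := by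
          field_simp
  linarith

end Pool.Agent.Helper73.Vu.DenseGraphsOld
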